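import Pool.Agent.H7.GU.Stmts
import Pool.Agent.H60.GT.XSP

/-!
# Board gu8, row XSP0 (copy of the row XSP of board gt7 by helper60)
-/

set_option autoImplicit false

open Finset

namespace Pool.GU7

open Pool.Agent.H23.KT Pool.Agent.H46.KW Pool.KQ Pool.GT7

theorem XSP0_thm (h1 : GCO0Stmt) : XSP0Stmt := by
  intro V _ G p w r a e C η W P U hprm hstr he he1 hCB hW hη hη1 L hL
  classical
  have hLc := (mem_clq G).1 hL
  have hXW : un P ⊆ W := by
    intro u hu
    rw [un, mem_biUnion] at hu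
    obtain ⟨i, _, hi⟩ := hu
    exact (hstr.cov u).2 (Or.inr ⟨i, hi⟩)
  have hWu : W = un P ∪ U := by
    ext u
    rw [mem_union, hstr.cov u, un, mem_biUnion]
    constructor
    · rintro (h | ⟨i, h⟩)
      · exact Or.inr h
      · exact Or.inl ⟨i, mem_univ _, h⟩
    · rintro (⟨i, _, h⟩ | h)
      · exact Or.inr ⟨i, h⟩
      · exact Or.inl h
  have hdis : Disjoint (un P) U := by
    rw [un, disjoint_biUnion_left]
    intro i _
    exact hstr.disU i
  obtain ⟨g1, -⟩ := h1 p w r hprm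
  have hnb : ∀ z ∈ W, (nb G L z).card ≤ p + 2 := fun z hz =>
    XSP_nb_le G p W L hCB (hLc.1.trans hXW) hLc.2.1 hLc.2.2 z hz
  have hm : 0 ≤ mm G p r (un P) L := by
    unfold mm
    exact sum_nonneg fun z hz => (g1 _ (hnb z (hXW hz))).2.2.1
  have hUW : U ⊆ W := fun z hz => (hstr.cov z).2 (Or.inl hz)
  have hy : 0 ≤ ∑ z ∈ U, ww p r (nb G L z).card :=
    sum_nonneg fun z hz => (g1 _ (hnb z (hUW hz))).1
  have hXX : XX G p r a W L = ((((p + 3) * a + r : ℕ) : ℝ) - (un P).card) + mm G p r (un P) L -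
      ∑ z ∈ U, ww p r (nb G L z).card := by
    unfold XX mm ww
    rw [sum_sub_distrib, sum_const, nsmul_eq_mul, mul_one]
    conv_lhs => rw [hWu]
    rw [sum_union hdis, card_union_of_disjoint hdis]
    push_cast
    ring
  rw [hXX]
  exact XSP_num _ _ _ _ _ hm hy hη hη1

end Pool.GU7
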